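import Mathlib
import Pool.Agent.R261.Irr

/-!
Irreducibility of a Moebius transform of the square root of a Blaschke product.

The surfaces of the question are, up to isomorphism, the surfaces `w ^ 2 = B z` over the unit disc
(`Cover β`), where `B` is the Blaschke product whose zeros are the branch values `β k`, all
distinct; `φ` is the projection `z`, the sheet interchange is `w ↦ -w`, and `ϑ = w`.

For `0 < |ξ| < 1` the function `θ_ξ = (ξ - ϑ) / (1 - conj ξ * ϑ)` is never a product of two
quasi-proper maps. So the answer to the question is yes.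
-/

set_option autoImplicit false

namespace Pool.Agent.Results.MP_c9945a_an.AlwaysIrreducible

open Pool.Agent.TH222.QP Pool.Agent.R261.Irr

/-- On every surface `w ^ 2 = B z` and for every `ξ` with `0 < |ξ| < 1`, such that
`(ξ^2 - B) / (1 - conj ξ ^ 2 * B)` is a Blaschke product, `θ_ξ` is not a product of two
quasi-proper maps. -/
theorem result : ∀ β : ℕ → ℂ, Function.Injective β → BSeq β → ∀ ξ : ℂ, 0 < ‖ξ‖ → ‖ξ‖ < 1 →
    IsBlaschke (fun z => (ξ ^ 2 - B β z) / (1 - (starRingEnd ℂ) ξ ^ 2 * B β z)) →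
    ∀ θ₁ θ₂ : Cover β → ℂ, QuasiProper β θ₁ → QuasiProper β θ₂ →
      ¬ ∀ p, (ξ - p.theta) / (1 - (starRingEnd ℂ) ξ * p.theta) = θ₁ p * θ₂ p :=
  fun _ hi h _ hξ0 hξ _ _ _ h1 h2 => irreducible hi h (norm_pos_iff.1 hξ0) hξ h1 h2

end Pool.Agent.Results.MP_c9945a_an.AlwaysIrreducible
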